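import Mathlib
import Pool.Agent.H97R3.Stab

set_option autoImplicit false

namespace Pool.Agent.Results.MP_5939ed_al.NotStableAll

/-- Normalised Hamming distance on `Sym(N)`. -/
noncomputable def ham {N : ℕ} (σ τ : Equiv.Perm (Fin N)) : ℝ :=
  ((Finset.univ.filter (fun i => σ i ≠ τ i)).card : ℝ) / N

/-- Stability in permutations of the group `⟨s, u, b ∣ s⁻¹ u s = uⁿ, u⁻¹ b u = bⁿ⟩`: for every `ε > 0`
there is `δ > 0` such that every assignment of permutations of `{1, …, N}` to the generators whose two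
relator defects are less than `δ` is within `ε`, on each generator, of an assignment satisfying the
relations exactly. -/
def StableInPermutations (n : ℕ) : Prop :=
  ∀ ε : ℝ, 0 < ε → ∃ δ : ℝ, 0 < δ ∧
    ∀ N : ℕ, ∀ s u b : Equiv.Perm (Fin N),
      ham (s⁻¹ * u * s) (u ^ n) < δ → ham (u⁻¹ * b * u) (b ^ n) < δ →
      ∃ s' u' b' : Equiv.Perm (Fin N),
        s'⁻¹ * u' * s' = u' ^ n ∧ u'⁻¹ * b' * u' = b' ^ n ∧
        ham s s' < ε ∧ ham u u' < ε ∧ ham b b' < ε

/-- For every `n ≥ 2`, the amalgam `H_n` of two copies of `BS(1,n)`, identifying the base generator of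
the first with the stable letter of the second, is not stable in permutations. -/
theorem result : ∀ n : ℕ, 2 ≤ n → ¬ StableInPermutations n := by
  intro n hn H
  apply Pool.Agent.H97R3.Stab.not_stable n hn
  intro ε hε
  obtain ⟨δ, hδ, h⟩ := H ε hε
  refine ⟨δ, hδ, fun N a b c h1 h2 => ?_⟩
  obtain ⟨s', u', b', r1, r2, e1, e2, e3⟩ := h N b a c h1 h2
  exact ⟨u', s', b', r1, r2, e2, e1, e3⟩

end Pool.Agent.Results.MP_5939ed_al.NotStableAll
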